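import Pool.Agent.FFG.EC.Family
import Pool.Agent.PEPS953.Transfer

/-!
# MP_953b23_mp: an entropy criterion

Let `Ψ` be a unit vector of the `L × L` torus, cut the torus into ordered pieces `A j`, and let
`B j` be parts of the union of the earlier pieces, `A j ∪ B j` in a box of side `R`. If the sum `K`
of the conditional entropies `S (A j ∪ B j) - S (B j)` is small, then some PEPS of small bond
dimension has overlap at least `exp (- K / 2)` with `Ψ`. For gapped families with a unique ground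
state this gives Q1's conclusion as soon as `R`, `K` and the overlap multiplicity of the boxes are
polylogarithmic.
-/

set_option autoImplicit false

open Pool.Agent.PEPS953.Plain Pool.Agent.FFG.EPlain

namespace Pool.Agent.Results.MP_953b23_mp.EntropyCriterion

open Pool.Agent.PEPS953 (up up_ofLp up_sub nrm_eq ip_eq up_ne_zero upF isGapped_iff polyAcc_iff
  quasiOverlap_iff IsGappedGS quasiOverlap_of_polyAcc polyAcc_of_quasiAcc quasiAcc_of_quasiOverlap)

/-- **Main theorem.** (1) If the sets `A j`, `j < m`, are a partition of the torus, every `B j` is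
contained in the union of the `A i`, `i < j`, every `A j ∪ B j` is contained in a box of side `R`,
and every site is in at most `n` of these boxes, then for every unit vector `Ψ` and every `η > 0`
some PEPS `Φ ≠ 0` of bond dimension `d ^ (2 n R ^ 2)` satisfies
`|⟨Ψ, Φ⟩| ≥ exp (- K / 2 - η) |Φ|`, where `K` is the sum of the conditional entropies
`S (A j ∪ B j) - S (B j)` of `Ψ`. (2) For a gapped family the conclusion of Q1 holds if and only if
some PEPS of quasi-polynomial bond dimension have quasi-polynomially small overlap with the ground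
states; by (1) it holds if the ground states admit partitions as in (1) with `R`, `n` and `K` at
most `C (log L) ^ k`. -/
theorem result {d : ℕ} (hd : 2 ≤ d) :
    (∀ (L : ℕ) [NeZero L] (Ψ : Vec d L), nrm Ψ = 1 →
      ∀ (R n m : ℕ) (A B : ℕ → Finset (Site L)) (c : ℕ → Site L), IsDecomp R n m A B c →
      ∀ η : ℝ, 0 < η → ∃ Φ : Vec d L, IsPEPS (d ^ (2 * (n * R ^ 2))) Φ ∧ Φ ≠ 0 ∧
        Real.exp (-(condSum Ψ m A B / 2) - η) * nrm Φ ≤ ‖ip Ψ Φ‖) ∧
    ∀ (r : ℕ) (h : Matrix (LConf d r) (LConf d r) ℂ) (Δ : ℝ) (E : ℕ → ℝ)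
      (Ψ : ∀ (L : ℕ) [NeZero L], Vec d L), 0 < r → h.IsHermitian → 0 < Δ →
      (∃ L₁ : ℕ, ∀ (L : ℕ) [NeZero L], L₁ ≤ L → IsGapped (ham L h) (E L) Δ (Ψ L)) →
      (PolyAcc Ψ ↔ QuasiOverlap Ψ) ∧ (SmallCondSum Ψ → PolyAcc Ψ) := by
  have hd0 : 0 < d := by omega
  refine ⟨?_, ?_⟩
  · intro L _ Ψ hΨ R n m A B c H η hη
    rw [nrm_eq] at hΨ
    obtain ⟨Φ, h1, h2, h3⟩ := Pool.Agent.FFG.EC.one_torus hd0 H hΨ hη
    refine ⟨Φ.ofLp, h1, ?_, ?_⟩
    · intro h
      apply h2
      rw [← up_ofLp Φ, h]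
      rfl
    · rw [nrm_eq, ip_eq, up_ofLp]
      exact h3
  · intro r h Δ E Ψ hr hh hΔ hgs'
    have hgs : ∃ L₁ : ℕ, ∀ (L : ℕ) [NeZero L], L₁ ≤ L →
        IsGappedGS (Pool.Agent.PEPS953.ham L h) (E L) Δ (upF Ψ L) := by
      obtain ⟨L₁, hL₁⟩ := hgs'
      exact ⟨L₁, fun L _ hL => (isGapped_iff h (E L) Δ (Ψ L)).mp (hL₁ L hL)⟩
    have hΨ : ∃ L₁ : ℕ, ∀ (L : ℕ) [NeZero L], L₁ ≤ L → ‖upF Ψ L‖ = 1 := by
      obtain ⟨L₁, hL₁⟩ := hgs
      exact ⟨L₁, fun L _ hL => (hL₁ L hL).norm_eq⟩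
    rw [polyAcc_iff, quasiOverlap_iff]
    exact ⟨⟨quasiOverlap_of_polyAcc hΨ, fun h1 =>
      polyAcc_of_quasiAcc (quasiAcc_of_quasiOverlap hr hh hΔ hgs h1)⟩,
      Pool.Agent.FFG.EC.family hd0 hr hh hΔ hgs⟩

end Pool.Agent.Results.MP_953b23_mp.EntropyCriterion
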