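import Pool.Agent.FFG.HE.FamHE
import Pool.Agent.FFG.HE.FamParent
import Pool.Agent.FFG.HE.Back
import Pool.Agent.FFG.HE.CondOne
import Pool.Agent.FFG.EC.One
import Pool.Agent.PEPS953.Transfer

/-!
# MP_953b23_mp: a hidden-entropy criterion

A family of vectors `Ψ` has hidden entropy of polylogarithmic size if every density matrix `ρ` on
the torus has entropy at most `κ (1 + D)`, where `D` is the sum over all boxes of side `R` of the
trace distance of `ρ` and `Ψ` on the box, with `R` and `κ` polylogarithmic. For ground states of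
gapped families this is equivalent to the existence of local parent tests, and it implies the
conclusion of Q1. It holds when the torus has ordered partitions into small pieces with a small sum
of conditional entropies.
-/

set_option autoImplicit false

open Pool.Agent.PEPS953.Plain Pool.Agent.FFG.EPlain Pool.Agent.FFG.HPlain

namespace Pool.Agent.Results.MP_953b23_mp.HiddenEntropy

open Pool.Agent.PEPS953 (up up_ofLp up_sub nrm_eq ip_eq up_ne_zero upF isGapped_iff polyAcc_iff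
  quasiOverlap_iff IsGappedGS quasiOverlap_of_polyAcc polyAcc_of_quasiAcc quasiAcc_of_quasiOverlap)

/-- **Main theorem.** (1) Let `Ψ` be a unit vector of the `L × L` torus. (a) If the sets `A j` are a
partition of the torus, `B j` is contained in the union of the earlier pieces, `A j ∪ B j` in a box
of side `R`, and every site in at most `n` of these boxes, then some PEPS `Φ ≠ 0` of bond dimension
`d ^ (2 n R ^ 2)` has overlap at least `exp (- K / 2 - η) |Φ|` with `Ψ`, `K` the sum of the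
conditional entropies. (b) If `q v` are projections on the boxes of side `R`, with sum `F`, and
`Tr exp (- β F) ≤ exp κ`, then some PEPS `Φ ≠ 0` of bond dimension `d ^ (4 p R ^ 4)` has overlap at
least `exp (- κ / 2) |Φ| / 2`, if `50 (8 R ^ 3 + 1) ^ 2 β ≤ p` and `4 p ∑ |q v Ψ| ≤ 1`. (2) For a
gapped family, `HiddenEntropy` is equivalent to `ParentTests`, follows from `SmallCondSum`, and
implies the conclusion of Q1, which is equivalent to a quasi-polynomially small overlap with some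
PEPS of quasi-polynomial bond dimension. -/
theorem result {d : ℕ} (hd : 2 ≤ d) :
    (∀ (L : ℕ) [NeZero L] (Ψ : Vec d L), nrm Ψ = 1 →
      (∀ (R n m : ℕ) (A B : ℕ → Finset (Site L)) (c : ℕ → Site L), IsDecomp R n m A B c →
        ∀ η : ℝ, 0 < η → ∃ Φ : Vec d L, IsPEPS (d ^ (2 * (n * R ^ 2))) Φ ∧ Φ ≠ 0 ∧
          Real.exp (-(condSum Ψ m A B / 2) - η) * nrm Φ ≤ ‖ip Ψ Φ‖) ∧
      ∀ R : ℕ, 0 < R → R ≤ L → ∀ q : Site L → Matrix (LConf d R) (LConf d R) ℂ,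
        (∀ v, (q v).IsHermitian ∧ q v * q v = q v) → ∀ β κ : ℝ, 0 ≤ β →
        ∀ h : (testSum q).IsHermitian,
        ∑ i, Real.exp (-β * h.eigenvalues i) ≤ Real.exp κ →
        ∀ p : ℕ, 50 * (8 * (R : ℝ) ^ 3 + 1) ^ 2 * β ≤ p →
        4 * p * ∑ v, nrm ((translate L (q v) v).mulVec Ψ) ≤ 1 →
        ∃ Φ : Vec d L, IsPEPS ((d ^ (2 * R ^ 2)) ^ (2 * p * R ^ 2)) Φ ∧ Φ ≠ 0 ∧
          Real.exp (-(κ / 2)) / 2 * nrm Φ ≤ ‖ip Ψ Φ‖) ∧
    ∀ (r : ℕ) (h : Matrix (LConf d r) (LConf d r) ℂ) (Δ : ℝ) (E : ℕ → ℝ)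
      (Ψ : ∀ (L : ℕ) [NeZero L], Vec d L), 0 < r → h.IsHermitian → 0 < Δ →
      (∃ L₁ : ℕ, ∀ (L : ℕ) [NeZero L], L₁ ≤ L → IsGapped (ham L h) (E L) Δ (Ψ L)) →
      (HiddenEntropy Ψ ↔ ParentTests Ψ) ∧ (SmallCondSum Ψ → HiddenEntropy Ψ) ∧
        (HiddenEntropy Ψ → PolyAcc Ψ) ∧ (PolyAcc Ψ ↔ QuasiOverlap Ψ) := by
  have hd0 : 0 < d := by omega
  refine ⟨fun L _ Ψ hΨ => ⟨?_, ?_⟩, ?_⟩
  · intro R n m A B c H η hη
    rw [nrm_eq] at hΨ
    obtain ⟨Φ, h1, h2, h3⟩ := Pool.Agent.FFG.EC.one_torus hd0 H hΨ hη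
    refine ⟨Φ.ofLp, h1, ?_, ?_⟩
    · intro h
      apply h2
      rw [← up_ofLp Φ, h]
      rfl
    · rw [nrm_eq, ip_eq, up_ofLp]
      exact h3
  · intro R hR hRL q hq β κ hβ h hZ p hp hε
    exact Pool.Agent.FFG.HE.plain_parent hd0 L Ψ hΨ R hR hRL q hq β κ hβ h hZ p hp hε
  · intro r h Δ E Ψ hr hh hΔ hgs'
    have hgs : ∃ L₁ : ℕ, ∀ (L : ℕ) [NeZero L], L₁ ≤ L →
        IsGappedGS (Pool.Agent.PEPS953.ham L h) (E L) Δ (upF Ψ L) := by
      obtain ⟨L₁, hL₁⟩ := hgs'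
      exact ⟨L₁, fun L _ hL => (isGapped_iff h (E L) Δ (Ψ L)).mp (hL₁ L hL)⟩
    have hΨ : ∃ L₁ : ℕ, ∀ (L : ℕ) [NeZero L], L₁ ≤ L → nrm (Ψ L) = 1 := by
      obtain ⟨L₁, hL₁⟩ := hgs'
      exact ⟨L₁, fun L _ hL => (hL₁ L hL).1⟩
    have hΨ' : ∃ L₁ : ℕ, ∀ (L : ℕ) [NeZero L], L₁ ≤ L → ‖upF Ψ L‖ = 1 := by
      obtain ⟨L₁, hL₁⟩ := hgs
      exact ⟨L₁, fun L _ hL => (hL₁ L hL).norm_eq⟩
    have h1 : HiddenEntropy Ψ → ParentTests Ψ :=
      Pool.Agent.FFG.HE.family_he hd0 hr hh hΔ hgs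
    have h2 : PolyAcc Ψ ↔ QuasiOverlap Ψ := by
      rw [polyAcc_iff, quasiOverlap_iff]
      exact ⟨quasiOverlap_of_polyAcc hΨ', fun h3 =>
        polyAcc_of_quasiAcc (quasiAcc_of_quasiOverlap hr hh hΔ hgs h3)⟩
    exact ⟨⟨h1, Pool.Agent.FFG.HE.he_of_parentTests⟩, Pool.Agent.FFG.HE.cond_family hd0 hΨ',
      fun h3 => h2.mpr (Pool.Agent.FFG.HE.family_parent hd0 hΨ (h1 h3)), h2⟩

end Pool.Agent.Results.MP_953b23_mp.HiddenEntropy
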